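import Pool.Agent.H57.PN

set_option autoImplicit false

namespace Pool.Agent.Results.MP_dd3545_lc.UnderCH

open Pool.Agent.H57.PN

/-- Under the continuum hypothesis some subset of Cantor space is perfectly null but not
universally null. -/
theorem result (hCH : Cardinal.continuum.{0} = Cardinal.aleph 1) :
    ∃ A : Set (ℕ → Bool), PerfectlyNull A ∧ ¬ UniversallyNull A :=
  main hCH

end Pool.Agent.Results.MP_dd3545_lc.UnderCH
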